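import Pool.Agent.Helper70.RT.Sheet
import Pool.Agent.Helper9.RT.Curve34

/-! Row CURVE of project RT (MP_798d7d_nt). -/

set_option autoImplicit false

namespace Pool.Helper70.RT

theorem st_CURVE : ST_CURVE := by
  intro f f' g g' hf hf' hg hg' hl S hS hc
  exact Pool.Agent.Helper9.RT.curve34 f f' g g' hf hf' hg hg' hl S hS (by omega)

end Pool.Helper70.RT
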