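import Pool.Agent.Helper70.RT.Sheet

/-! Row RES of project RT (MP_798d7d_nt): the resultant vanishes where both polynomials vanish. -/

set_option autoImplicit false

namespace Pool.Helper70.RT

open Polynomial

theorem st_RES : ST_RES := by
  intro P Q hP hQ q t h1 h2
  have p4 : P.coeff 4 = 0 := coeff_eq_zero_of_natDegree_lt (by omega)
  have p5 : P.coeff 5 = 0 := coeff_eq_zero_of_natDegree_lt (by omega)
  have p6 : P.coeff 6 = 0 := coeff_eq_zero_of_natDegree_lt (by omega)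
  have q5 : Q.coeff 5 = 0 := coeff_eq_zero_of_natDegree_lt (by omega)
  have q6 : Q.coeff 6 = 0 := coeff_eq_zero_of_natDegree_lt (by omega)
  have eP : P.eval t = P.coeff 0 + P.coeff 1 * t + P.coeff 2 * t ^ 2 + P.coeff 3 * t ^ 3 := by
    rw [eval_eq_sum_range' (show P.natDegree < 4 by omega)]
    simp [Finset.sum_range_succ]
  have eQ : Q.eval t = Q.coeff 0 + Q.coeff 1 * t + Q.coeff 2 * t ^ 2 + Q.coeff 3 * t ^ 3 +
      Q.coeff 4 * t ^ 4 := by
    rw [eval_eq_sum_range' (show Q.natDegree < 5 by omega)]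
    simp [Finset.sum_range_succ]
  obtain ⟨v, hv⟩ : ∃ v : Fin 7 → ℤ, v = fun j : Fin 7 => t ^ (j : ℕ) := ⟨_, rfl⟩
  have key : ∀ i, q ∣ ((syl P Q).mulVec v) i := by
    intro i
    have hi : ((syl P Q).mulVec v) i = if (i : ℕ) < 4 then t ^ (i : ℕ) * P.eval t else
        t ^ ((i : ℕ) - 4) * Q.eval t := by
      rw [hv, eP, eQ]
      fin_cases i <;>
        simp [Matrix.mulVec, dotProduct, Fin.sum_univ_succ, syl, p4, p5, p6, q5, q6] <;> ring
    rw [hi]
    split_ifs
    · exact Dvd.dvd.mul_left h1 _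
    · exact Dvd.dvd.mul_left h2 _
  have hdet : (syl P Q).det = ((syl P Q).adjugate.mulVec ((syl P Q).mulVec v)) 0 := by
    rw [Matrix.mulVec_mulVec, Matrix.adjugate_mul, Matrix.smul_mulVec, Matrix.one_mulVec, hv]
    simp
  rw [hdet]
  change q ∣ ∑ j, (syl P Q).adjugate 0 j * ((syl P Q).mulVec v) j
  exact Finset.dvd_sum fun j _ => Dvd.dvd.mul_left (key j) _

end Pool.Helper70.RT
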